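import Pool.Agent.V11133.BEI.GLim
import Pool.Agent.Y797.GC.Unr
import Pool.Agent.Y797.GC.Gen
set_option autoImplicit false

/-!
Beilinson's conjecture for `K_2` of curves over number fields `K`: the limit formula for the
regulators of the integral classes of the curves
`λ g ∏_i (y - φ_i(x)) ^ (w_i + 1) ∏_k (x - ρ_k) ^ ν_k = 1`, with arbitrary polynomials `φ_i` and numbers
`ρ_k` over the ring of integers of `K`, at all complex embeddings `σ` of `K` at once: the constant does
not depend on `σ`, and only the absolute value `|σ λ|` at the embedding `σ` has to be large. For every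
pair `(i, k)` there is a loop `Γ_{i,k}` in the complex points over `σ` on which the regulators of *all*
the classes `∑ n_{i,k} {y - φ_i(x), x - ρ_k}` with admissible coefficients are
`- (2 π n_{i,k} + o(1)) log |σ λ|`, so that the determinants of the regulators of families of such
classes are asymptotically `(- 2 π log |σ λ|) ^ b` times the determinants of their coefficients; for a
basis of the space of the admissible coefficients, of dimension `b` (at least the genus of the curve in
the nodal case), and suitable loops, they are asymptotically `(- 2 π log |σ λ|) ^ b`.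
-/

namespace Pool.Agent.Results.MP_0a9c3b_nt.LimitsAtAllEmbeddings

open Pool.Agent.TH826.MK (KQ Unramified Torus)

open Pool.Agent.Y797.GC

section defs

variable {K : Type*} [Field K] {r p : ℕ}

/-- The `φ_i` are different and have integral coefficients, the `ρ_k` are different and integral,
`g` has integral coefficients and does not vanish at the points `(ρ_k, φ_i(ρ_k))`. -/
def IntegralData (A : Arr K r p) : Prop :=
  (∀ i j, IsIntegral ℤ ((A.phi i).coeff j)) ∧ (∀ k, IsIntegral ℤ (A.rho k)) ∧
    (∀ i j, IsIntegral ℤ ((A.g.coeff i).coeff j)) ∧ Function.Injective A.phi ∧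
    Function.Injective A.rho ∧ ∀ i k, (A.g.eval (A.phi i)).eval (A.rho k) ≠ 0

/-- The lower bounds for the dimension of the space of the admissible coefficients. -/
def DimensionBounds (A : Arr K r p) : Prop :=
  (r + 1) * p + 1 ≤ A.dim + A.comps ∧
    ∀ d, (∀ k, A.nu k ≤ 1) → A.Nodal d → (r + 1).choose 2 * d + r * ∑ k, A.nu k ≤ A.dim + r

/-- There is a basis `B_m` of the space of the admissible coefficients and there are pairs
`e_l = (i_l, k_l)` such that the `e_l`-th coefficient of `B_m` is `1` for `l = m` and `0` for `l ≠ m`. -/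
def DualBasis (A : Arr K r p) : Prop :=
  ∃ (B : Fin A.dim → Fin (r + 1) → Fin p → ℚ) (e : Fin A.dim → Fin (r + 1) × Fin p), A.IsBasis B ∧
    ∀ l m, B m (e l).1 (e l).2 = if l = m then 1 else 0

/-- The classes with admissible coefficients have unramified images in `K_2 ⊗ ℚ` of all fields `L`
with a homomorphism from the coordinate ring of the open part to `L`. -/
def UnramifiedClasses.{u, v} {K : Type u} [Field K] (A : Arr K r p) (lam : K) : Prop :=
  ∀ n, A.IsAdm n → ∀ (L : Type v) [Field L] (f : A.Open lam →+* L),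
    KQ.map 2 f (A.cl lam n) ∈ Unramified L 2

/-- There are loops `Γ_{i,k}` in the complex points (over `σ`) of the open part of the curve such that
for all `n` the regulator of the class of `n` on `Γ_{i,k}`, divided by `- log |σ λ|`, differs from
`2 π n_{i,k}` by at most `ε ∑ |n_{j,l}|`. -/
def LoopsWithin (σ : K →+* ℂ) (A : Arr K r p) (lam : K) (ε : ℝ) : Prop :=
  ∃ Γ : Fin (r + 1) → Fin p → Torus (A.Open lam) 1,
    (∀ i k θ (x : K), (Γ i k).e θ (A.toO lam (Polynomial.C (Polynomial.C x))) = σ x) ∧
    ∀ (n : Fin (r + 1) → Fin p → ℚ) i k,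
      |(Γ i k).reg (A.cl lam n) / (-Real.log ‖σ lam‖) - 2 * Real.pi * (n i k : ℝ)| ≤
        ε * ∑ j, ∑ l, |(n j l : ℝ)|

/-- There are `b` loops in the complex points (over `σ`) of the open part of the curve such that the
determinant of the regulators of the classes of `B_1, ..., B_b` on them, divided by
`(- log |σ λ|) ^ b`, differs from `(2 π) ^ b det (B_{m, e_l})` by less than `ε`. -/
def DeterminantWithin (σ : K →+* ℂ) (A : Arr K r p) (lam : K) {b : ℕ}
    (B : Fin b → Fin (r + 1) → Fin p → ℚ) (e : Fin b → Fin (r + 1) × Fin p) (ε : ℝ) : Prop :=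
  ∃ Γ : Fin b → Torus (A.Open lam) 1,
    (∀ l θ (x : K), (Γ l).e θ (A.toO lam (Polynomial.C (Polynomial.C x))) = σ x) ∧
    |(Matrix.of fun l m => (Γ l).reg (A.cl lam (B m))).det / (-Real.log ‖σ lam‖) ^ b -
      (2 * Real.pi) ^ b * (((Matrix.of fun l m => B m (e l).1 (e l).2).det : ℚ) : ℝ)| < ε

end defs

/-- Let `K` be a number field, let `φ_0, ..., φ_r` be different polynomials in `K[x]` with integral
coefficients, let `ρ_1, ..., ρ_p` be different algebraic integers of `K`, let `w_i ≥ 0` and
`ν_k ≥ 0` be integers, and let `g` be a polynomial in `K[x, y]` with integral coefficients which does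
not vanish at the points `(ρ_k, φ_i(ρ_k))`. Let `Adm` be the space of the rational matrices
`(n_{i,k})` such that the sums of the rows and of the columns vanish, and for every `k` with
`ν_k = 0` and every `z` the sum of the `n_{i,k}` over all `i` with `φ_i(ρ_k) = z` vanishes; its
dimension `b` satisfies the `DimensionBounds`, and it has a basis dual to `b` of the coordinates.
For all algebraic integers `λ` of `K` the classes of the `n` in `Adm` on the curve
`λ g ∏_i (y - φ_i(x)) ^ (w_i + 1) ∏_k (x - ρ_k) ^ ν_k = 1` in `K_2 ⊗ ℚ` are unramified.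

For every `ε > 0` there is a constant `C` such that for all `λ` in `K` and all complex embeddings `σ`
of `K` with `|σ λ| ≥ C` the curve is smooth over `σ`, and there are loops `Γ_{i,k}` in its complex
points over `σ` on which the regulators of all the classes, divided by `- log |σ λ|`, are
`2 π n_{i,k}` up to `ε ∑ |n_{j,l}|`. Hence for all `B_1, ..., B_b` and all pairs `e_1, ..., e_b` there
is for every `ε > 0` a constant `C` such that for all `λ` and all `σ` with `|σ λ| ≥ C` there are `b`
loops over `σ` for which the determinant of the regulators, divided by `(- log |σ λ|) ^ b`, is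
`(2 π) ^ b det (B_{m, e_l})` up to `ε`. -/
theorem result.{u, v} (r p : ℕ) (K : Type u) [Field K] [NumberField K]
    (A : Arr K r p) (hA : IntegralData A) :
    DimensionBounds A ∧ DualBasis A ∧
    (∀ lam : K, IsIntegral ℤ lam → UnramifiedClasses.{u, v} A lam) ∧
    (∀ ε : ℝ, 0 < ε → ∃ C : ℝ, ∀ (lam : K) (σ : K →+* ℂ), C ≤ ‖σ lam‖ →
      A.Smooth lam σ ∧ LoopsWithin σ A lam ε) ∧
    ∀ (b : ℕ) (B : Fin b → Fin (r + 1) → Fin p → ℚ) (e : Fin b → Fin (r + 1) × Fin p) (ε : ℝ),
      0 < ε → ∃ C : ℝ, ∀ (lam : K) (σ : K →+* ℂ), C ≤ ‖σ lam‖ →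
        DeterminantWithin σ A lam B e ε := by
  classical
  obtain ⟨hphi, hrho, hg, hphi', hrho', hv⟩ := hA
  have hfin : Finite (K →+* ℂ) := inferInstance
  have hF : Fintype (K →+* ℂ) := Fintype.ofFinite _
  have hsum : ∀ (Λ : (K →+* ℂ) → ℝ) (σ : K →+* ℂ), Λ σ ≤ ∑ τ, |Λ τ| := fun Λ σ =>
    (le_abs_self _).trans
      (Finset.single_le_sum (f := fun τ => |Λ τ|) (fun τ _ => abs_nonneg _) (Finset.mem_univ σ))
  refine ⟨⟨finrank_Adm A, fun d h1 h2 => genus_le A h1 h2⟩,
    Pool.Agent.V11133.BEI.exists_echelon A, fun lam hlam n hn L _ f =>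
      cl_mem_unramified f hphi hrho hg hlam hn, fun ε hε => ?_, fun b B e ε hε => ?_⟩
  · have h1 : ∀ σ : K →+* ℂ, ∃ Λ : ℝ, ∀ lam : K, Λ ≤ ‖σ lam‖ →
        A.Smooth lam σ ∧ LoopsWithin σ A lam ε := by
      intro σ
      obtain ⟨Λ, hΛ1, hΛ⟩ := Pool.Agent.V11133.BEI.exists_loops (A := A) σ hphi' hrho' hv hε
      obtain ⟨Λ', hΛ'1, hΛ'⟩ := exists_smooth A σ
      exact ⟨max Λ Λ', fun lam hl => ⟨hΛ' lam ((le_max_right _ _).trans hl),
        hΛ lam ((le_max_left _ _).trans hl)⟩⟩
    choose Λ hΛ using h1
    exact ⟨∑ τ, |Λ τ|, fun lam σ hl => hΛ σ lam ((hsum Λ σ).trans hl)⟩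
  · have h1 : ∀ σ : K →+* ℂ, ∃ Λ : ℝ, ∀ lam : K, Λ ≤ ‖σ lam‖ → DeterminantWithin σ A lam B e ε := by
      intro σ
      obtain ⟨Λ, hΛ1, hΛ⟩ := Pool.Agent.V11133.BEI.det_limit (A := A) σ hphi' hrho' hv B e hε
      exact ⟨Λ, fun lam hl => hΛ lam hl⟩
    choose Λ hΛ using h1
    exact ⟨∑ τ, |Λ τ|, fun lam σ hl => hΛ σ lam ((hsum Λ σ).trans hl)⟩

end Pool.Agent.Results.MP_0a9c3b_nt.LimitsAtAllEmbeddings
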